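import Pool.Agent.Helper54.InvDomain

/-!
# Poincare-Miranda in the Hilbert cube
-/

open Set Filter Topology Metric

namespace Pool.Agent.Helper72.HC

/-- Points of the Hilbert cube built from the first `n` coordinates. -/
noncomputable def emb (n : ℕ) (y : EuclideanSpace ℝ (Fin n)) : ℕ → unitInterval :=
  fun i => if h : i < n then projIcc 0 1 zero_le_one (y ⟨i, h⟩) else 0

theorem continuous_emb (n : ℕ) : Continuous (emb n) := by
  refine continuous_pi fun i => ?_
  by_cases h : i < n
  · simp only [emb, h, dite_true]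
    exact continuous_projIcc.comp (by fun_prop)
  · simp only [emb, h, dite_false]
    exact continuous_const

theorem miranda_fin (g : ℕ → (ℕ → unitInterval) → ℝ) (hg : ∀ j, Continuous (g j))
    (h0 : ∀ j x, (x j : ℝ) = 0 → g j x < 0) (h1 : ∀ j x, (x j : ℝ) = 1 → 0 < g j x) (n : ℕ) :
    ∃ x : ℕ → unitInterval, ∀ j < n, g j x = 0 := by
  let E := EuclideanSpace ℝ (Fin n)
  let G : E → E := fun y => WithLp.toLp 2 fun i : Fin n =>
    ((projIcc 0 1 zero_le_one ((emb n y i : ℝ) - g i (emb n y)) : unitInterval) : ℝ)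
  have hG : Continuous G := by
    refine (PiLp.continuous_toLp 2 _).comp (continuous_pi fun i => ?_)
    refine continuous_subtype_val.comp (continuous_projIcc.comp ?_)
    exact (continuous_subtype_val.comp ((continuous_apply _).comp (continuous_emb n))).sub
      ((hg i).comp (continuous_emb n))
  have hR : (0 : ℝ) < n + 1 := by positivity
  have hGn : ∀ y, ‖G y‖ ≤ n + 1 := by
    intro y
    rw [EuclideanSpace.norm_eq]
    rw [Real.sqrt_le_left hR.le]
    calc ∑ i, ‖(G y) i‖ ^ 2 ≤ ∑ _i : Fin n, (1 : ℝ) := by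
          refine Finset.sum_le_sum fun i _ => ?_
          have h2 : ‖(G y) i‖ ≤ 1 := by
            have h3 := (projIcc (0 : ℝ) 1 zero_le_one ((emb n y i : ℝ) - g i (emb n y))).2
            have h4 : (G y) i =
              ((projIcc 0 1 zero_le_one ((emb n y i : ℝ) - g i (emb n y)) : unitInterval) : ℝ) :=
              rfl
            rw [h4, Real.norm_of_nonneg h3.1]
            exact h3.2
          have h5 := norm_nonneg ((G y) i)
          nlinarith
      _ = n := by simp
      _ ≤ (n + 1) ^ 2 := by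
          have : (0 : ℝ) ≤ n := Nat.cast_nonneg n
          nlinarith
  let F : E → E := fun y => ((n : ℝ) + 1)⁻¹ • G (((n : ℝ) + 1) • y)
  obtain ⟨y, -, hy⟩ := Pool.Agent.Helper54.brouwer (E := E) (F := F)
    (by
      refine Continuous.continuousOn ?_
      exact (hG.comp (continuous_id.const_smul ((n : ℝ) + 1))).const_smul ((n : ℝ) + 1)⁻¹)
    (by
      intro y _
      rw [mem_closedBall_zero_iff]
      change ‖((n : ℝ) + 1)⁻¹ • G (((n : ℝ) + 1) • y)‖ ≤ 1
      rw [norm_smul, norm_inv, Real.norm_of_nonneg hR.le, inv_mul_le_iff₀ hR, mul_one]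
      exact hGn _)
  set z : E := ((n : ℝ) + 1) • y with hz
  have hGz : G z = z := by
    have h2 : ((n : ℝ) + 1)⁻¹ • G z = y := hy
    rw [← h2, smul_smul, mul_inv_cancel₀ hR.ne', one_smul] at hz
    exact hz.symm
  refine ⟨emb n z, fun j hj => ?_⟩
  have hzj : z ⟨j, hj⟩ = ((projIcc 0 1 zero_le_one ((emb n z j : ℝ) - g j (emb n z)) :
      unitInterval) : ℝ) := by
    conv_lhs => rw [← hGz]
  have hmem : z ⟨j, hj⟩ ∈ Icc (0 : ℝ) 1 := by
    rw [hzj]
    exact Subtype.coe_prop _
  have hez : (emb n z j : ℝ) = z ⟨j, hj⟩ := by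
    simp only [emb, hj, dite_true]
    rw [projIcc_of_mem zero_le_one hmem]
  rw [← hez, coe_projIcc] at hzj
  have he0 : 0 ≤ (emb n z j : ℝ) := (emb n z j).2.1
  have he1 : (emb n z j : ℝ) ≤ 1 := (emb n z j).2.2
  by_contra hne
  rcases lt_or_gt_of_ne hne with hlt | hgt
  · -- then the coordinate is one
    have h2 : (emb n z j : ℝ) = 1 := by
      rcases le_total ((emb n z j : ℝ) - g j (emb n z)) 1 with h3 | h3
      · rw [min_eq_right h3, max_eq_right (by linarith)] at hzj
        linarith
      · rw [min_eq_left h3, max_eq_right zero_le_one] at hzj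
        exact hzj
    have := h1 j _ h2
    linarith
  · have h2 : (emb n z j : ℝ) = 0 := by
      rcases le_total ((emb n z j : ℝ) - g j (emb n z)) 0 with h3 | h3
      · rw [min_eq_right (by linarith), max_eq_left h3] at hzj
        exact hzj
      · rw [min_eq_right (by linarith), max_eq_right h3] at hzj
        linarith
    have := h0 j _ h2
    linarith

theorem miranda (g : ℕ → (ℕ → unitInterval) → ℝ) (hg : ∀ j, Continuous (g j))
    (h0 : ∀ j x, (x j : ℝ) = 0 → g j x < 0) (h1 : ∀ j x, (x j : ℝ) = 1 → 0 < g j x) :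
    ∃ x : ℕ → unitInterval, ∀ j, g j x = 0 := by
  choose x hx using miranda_fin g hg h0 h1
  obtain ⟨z, -, hz⟩ : ∃ z ∈ (univ : Set (ℕ → unitInterval)), MapClusterPt z atTop x :=
    isCompact_univ.exists_mapClusterPt (by simp)
  refine ⟨z, fun j => ?_⟩
  have h2 : z ∈ closure {y : ℕ → unitInterval | g j y = 0} := by
    refine mem_closure_iff_clusterPt.2 (ClusterPt.mono hz ?_)
    rw [le_principal_iff]
    refine mem_map.2 ?_
    filter_upwards [eventually_gt_atTop j] with n hn
    exact hx n j hn
  have h3 : IsClosed {y : ℕ → unitInterval | g j y = 0} := isClosed_eq (hg j) continuous_const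
  rw [h3.closure_eq] at h2
  exact h2

end Pool.Agent.Helper72.HC
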