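import Pool.Agent.Helper72.HC.Ess

/-!
# Separating two closed sets by a function that does not vanish on a null family
-/

open Set Filter Topology Metric

set_option linter.unusedSectionVars false

namespace Pool.Agent.Helper72.HC

variable {X : Type*} [MetricSpace X] [CompactSpace X] {p : ℕ → X → ℝ}

/-- All distances in `A` are at most `ε`. -/
def Small (ε : ℝ) (A : Set X) : Prop := ∀ x ∈ A, ∀ y ∈ A, dist x y ≤ ε

theorem small_closure {ε : ℝ} {A : Set X} (h : Small ε A) : Small ε (closure A) := by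
  intro x hx y hy
  have h1 : ∀ y ∈ A, dist x y ≤ ε := by
    intro y hy
    have : closure A ⊆ {x | dist x y ≤ ε} :=
      closure_minimal (fun x hx => h x hx y hy)
        (isClosed_le (continuous_id.dist continuous_const) continuous_const)
    exact this hx
  have : closure A ⊆ {y | dist x y ≤ ε} :=
    closure_minimal (fun y hy => h1 y hy)
      (isClosed_le (continuous_const.dist continuous_id) continuous_const)
  exact this hy

theorem small_mono {ε ε' : ℝ} {A : Set X} (h : Small ε A) (he : ε ≤ ε') : Small ε' A :=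
  fun x hx y hy => (h x hx y hy).trans he

/-- The members of the sequence become small. -/
def NullSeq (W : ℕ → Set X) : Prop := ∀ ε > 0, ∃ N, ∀ n ≥ N, Small ε (W n)

/-- The data of the separation. -/
structure Sep (W : ℕ → Set X) (A B : Set X) : Prop where
  cA : IsClosed A
  cB : IsClosed B
  dAB : Disjoint A B
  dW : ∀ n, Disjoint (W n) A ∨ Disjoint (W n) B

theorem Sep.symm {W : ℕ → Set X} {A B : Set X} (h : Sep W A B) : Sep W B A :=
  ⟨h.cB, h.cA, h.dAB.symm, fun n => (h.dW n).symm⟩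

/-- Disjoint closed sets of a compact metric space have disjoint closed thickenings. -/
theorem exists_thick {A B : Set X} (hA : IsClosed A) (hB : IsClosed B) (h : Disjoint A B) :
    ∃ δ > 0, ∀ δ' ≤ δ, Disjoint (cthickening δ' A) (cthickening δ' B) := by
  obtain ⟨δ, hδ, hd⟩ := h.exists_cthickenings hA.isCompact hB
  exact ⟨δ, hδ, fun δ' hδ' => hd.mono (cthickening_mono hδ' _) (cthickening_mono hδ' _)⟩

theorem Sep.absorb {W : ℕ → Set X} (hWc : ∀ n, IsClosed (W n))
    (hWd : ∀ m n, m ≠ n → Disjoint (W m) (W n)) {A B : Set X} (h : Sep W A B) (m : ℕ)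
    (hm : Disjoint (W m) B) : Sep W (A ∪ W m) B := by
  refine ⟨h.cA.union (hWc m), h.cB, ?_, fun n => ?_⟩
  · exact disjoint_union_left.2 ⟨h.dAB, hm⟩
  · by_cases hmn : n = m
    · subst hmn
      exact Or.inr hm
    · rcases h.dW n with h1 | h1
      · exact Or.inl (disjoint_union_right.2 ⟨h1, hWd n m hmn⟩)
      · exact Or.inr h1

/-- Both sets can be enlarged. -/
theorem Sep.thicken {W : ℕ → Set X} (hWc : ∀ n, IsClosed (W n)) (hWn : NullSeq W)
    {A B : Set X} (h : Sep W A B) :
    ∃ δ > 0, Sep W (cthickening δ A) (cthickening δ B) := by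
  -- a common thickening of `A` and `B`
  obtain ⟨δ₀, hδ₀, hd₀⟩ := exists_thick h.cA h.cB h.dAB
  -- distance between the thickenings
  obtain ⟨η, hη, hdist⟩ : ∃ η > 0, ∀ x ∈ cthickening (δ₀) A, ∀ y ∈ cthickening (δ₀) B,
      η < dist x y := by
    obtain ⟨r, hr, hrd⟩ := exists_thick (isClosed_cthickening (δ := δ₀) (E := A))
      (isClosed_cthickening (δ := δ₀) (E := B)) (hd₀ δ₀ le_rfl)
    refine ⟨r, hr, fun x hx y hy => ?_⟩
    by_contra hcon
    have h1 : x ∈ cthickening r (cthickening δ₀ A) := self_subset_cthickening _ hx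
    have h2 : x ∈ cthickening r (cthickening δ₀ B) :=
      mem_cthickening_of_dist_le x y r _ hy (not_lt.1 hcon)
    exact Set.disjoint_left.1 (hrd r le_rfl) h1 h2
  obtain ⟨N, hN⟩ := hWn η hη
  -- the finitely many large members
  have hfin : ∀ M : ℕ, ∃ δ > 0, δ ≤ δ₀ ∧ ∀ δ' ≤ δ, ∀ n < M,
      Disjoint (W n) (cthickening δ' A) ∨ Disjoint (W n) (cthickening δ' B) := by
    intro M
    induction M with
    | zero => exact ⟨δ₀, hδ₀, le_rfl, fun δ' _ n hn => absurd hn (Nat.not_lt_zero n)⟩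
    | succ M ih =>
      obtain ⟨δ, hδ, hδ0, hh⟩ := ih
      have h3 : ∃ δ₁ > 0, ∀ δ' ≤ δ₁,
          Disjoint (W M) (cthickening δ' A) ∨ Disjoint (W M) (cthickening δ' B) := by
        rcases h.dW M with h1 | h1
        · obtain ⟨δ₁, hδ₁, h2⟩ := exists_thick (hWc M) h.cA h1
          exact ⟨δ₁, hδ₁, fun δ' hδ' => Or.inl
            ((h2 δ' hδ').mono_left (self_subset_cthickening _))⟩
        · obtain ⟨δ₁, hδ₁, h2⟩ := exists_thick (hWc M) h.cB h1
          exact ⟨δ₁, hδ₁, fun δ' hδ' => Or.inr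
            ((h2 δ' hδ').mono_left (self_subset_cthickening _))⟩
      obtain ⟨δ₁, hδ₁, h4⟩ := h3
      refine ⟨min δ δ₁, lt_min hδ hδ₁, (min_le_left _ _).trans hδ0, fun δ' hδ' n hn => ?_⟩
      rcases Nat.lt_succ_iff_lt_or_eq.1 hn with h5 | h5
      · exact hh δ' (hδ'.trans (min_le_left _ _)) n h5
      · subst h5
        exact h4 δ' (hδ'.trans (min_le_right _ _))
  obtain ⟨δ, hδ, hδ0, hh⟩ := hfin N
  refine ⟨δ, hδ, isClosed_cthickening, isClosed_cthickening, hd₀ δ hδ0, fun n => ?_⟩
  by_cases hn : n < N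
  · exact hh δ le_rfl n hn
  · by_contra hcon
    push Not at hcon
    obtain ⟨h1, h2⟩ := hcon
    obtain ⟨x, hx, hxA⟩ := Set.not_disjoint_iff.1 h1
    obtain ⟨y, hy, hyB⟩ := Set.not_disjoint_iff.1 h2
    have h3 := hN n (not_lt.1 hn) x hx y hy
    have h4 := hdist x (cthickening_mono hδ0 _ hxA) y (cthickening_mono hδ0 _ hyB)
    linarith

/-- One step of the construction. -/
theorem Sep.step {W : ℕ → Set X} (hWc : ∀ n, IsClosed (W n))
    (hWd : ∀ m n, m ≠ n → Disjoint (W m) (W n)) (hWn : NullSeq W)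
    {A B : Set X} (h : Sep W A B) (m : ℕ) :
    ∃ A' B' : Set X, Sep W A' B' ∧ A ⊆ interior A' ∧ B ⊆ interior B' ∧
      (W m ⊆ A' ∨ W m ⊆ B') := by
  have key : ∀ (A B : Set X), Sep W A B → Disjoint (W m) B →
      ∃ A' B' : Set X, Sep W A' B' ∧ A ⊆ interior A' ∧ B ⊆ interior B' ∧
      W m ⊆ A' := by
    intro A B h hm
    obtain ⟨δ, hδ, hs⟩ := (h.absorb hWc hWd m hm).thicken hWc hWn
    refine ⟨_, _, hs, ?_, ?_, ?_⟩
    · exact subset_union_left.trans
        ((self_subset_thickening hδ _).trans (thickening_subset_interior_cthickening _ _))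
    · exact (self_subset_thickening hδ _).trans (thickening_subset_interior_cthickening _ _)
    · exact subset_union_right.trans (self_subset_cthickening _)
  rcases h.dW m with h1 | h1
  · obtain ⟨B', A', hs, hB, hA, hm⟩ := key B A h.symm h1
    exact ⟨A', B', hs.symm, hA, hB, Or.inr hm⟩
  · obtain ⟨A', B', hs, hA, hB, hm⟩ := key A B h h1
    exact ⟨A', B', hs, hA, hB, Or.inl hm⟩

/-- Generic recursion. -/
theorem exists_seq {σ : Type*} (P : ℕ → σ → Prop) (R : ℕ → σ → σ → Prop) (s₀ : σ)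
    (h0 : P 0 s₀) (hs : ∀ n s, P n s → ∃ s', P (n + 1) s' ∧ R n s s') :
    ∃ f : ℕ → σ, f 0 = s₀ ∧ (∀ n, P n (f n)) ∧ ∀ n, R n (f n) (f (n + 1)) := by
  choose! F hF hR using hs
  let f : ℕ → σ := fun n => Nat.rec s₀ (fun n s => F n s) n
  have hf : ∀ n, f (n + 1) = F n (f n) := fun n => rfl
  have hP : ∀ n, P n (f n) := by
    intro n
    induction n with
    | zero => exact h0
    | succ n ih => rw [hf]; exact hF n _ ih
  exact ⟨f, rfl, hP, fun n => by rw [hf]; exact hR n _ (hP n)⟩

/-- Separation by open sets that swallow the whole family. -/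
theorem Sep.exists_open {W : ℕ → Set X} (hWc : ∀ n, IsClosed (W n))
    (hWd : ∀ m n, m ≠ n → Disjoint (W m) (W n)) (hWn : NullSeq W)
    {A B : Set X} (h : Sep W A B) :
    ∃ G G' : Set X, IsOpen G ∧ IsOpen G' ∧ Disjoint G G' ∧ A ⊆ G ∧ B ⊆ G' ∧
      ∀ n, W n ⊆ G ∨ W n ⊆ G' := by
  obtain ⟨f, hf0, hP, hR⟩ := exists_seq (σ := Set X × Set X) (fun _ s => Sep W s.1 s.2)
    (fun n s s' => s.1 ⊆ interior s'.1 ∧ s.2 ⊆ interior s'.2 ∧ (W n ⊆ s'.1 ∨ W n ⊆ s'.2))
    (A, B) h (fun n s hs => by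
      obtain ⟨A', B', h1, h2, h3, h4⟩ := hs.step hWc hWd hWn n
      exact ⟨(A', B'), h1, h2, h3, h4⟩)
  have hm1 : Monotone fun n => (f n).1 :=
    monotone_nat_of_le_succ fun n => (hR n).1.trans interior_subset
  have hm2 : Monotone fun n => (f n).2 :=
    monotone_nat_of_le_succ fun n => (hR n).2.1.trans interior_subset
  refine ⟨⋃ n, interior (f n).1, ⋃ n, interior (f n).2, isOpen_iUnion fun n => isOpen_interior,
    isOpen_iUnion fun n => isOpen_interior, ?_, ?_, ?_, ?_⟩
  · rw [Set.disjoint_left]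
    intro x hx hx'
    obtain ⟨m, hm⟩ := mem_iUnion.1 hx
    obtain ⟨n, hn⟩ := mem_iUnion.1 hx'
    have h1 : x ∈ (f (max m n)).1 := hm1 (le_max_left m n) (interior_subset hm)
    have h2 : x ∈ (f (max m n)).2 := hm2 (le_max_right m n) (interior_subset hn)
    exact Set.disjoint_left.1 (hP _).dAB h1 h2
  · intro x hx
    refine mem_iUnion.2 ⟨1, (hR 0).1 ?_⟩
    rw [hf0]; exact hx
  · intro x hx
    refine mem_iUnion.2 ⟨1, (hR 0).2.1 ?_⟩
    rw [hf0]; exact hx
  · intro n
    rcases (hR n).2.2 with h1 | h1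
    · left
      intro x hx
      exact mem_iUnion.2 ⟨n + 2, (hR (n + 1)).1 (h1 hx)⟩
    · right
      intro x hx
      exact mem_iUnion.2 ⟨n + 2, (hR (n + 1)).2.1 (h1 hx)⟩

theorem Sep.exists_fun {W : ℕ → Set X} (hWc : ∀ n, IsClosed (W n))
    (hWd : ∀ m n, m ≠ n → Disjoint (W m) (W n)) (hWn : NullSeq W)
    {A B : Set X} (h : Sep W A B) :
    ∃ g : X → ℝ, Continuous g ∧ (∀ x ∈ A, g x < 0) ∧ (∀ x ∈ B, 0 < g x) ∧
      ∀ n, ∀ x ∈ W n, g x ≠ 0 := by
  rcases A.eq_empty_or_nonempty with rfl | hAne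
  · exact ⟨fun _ => 1, continuous_const, fun x hx => absurd hx (notMem_empty x),
      fun x _ => one_pos, fun n x _ => one_ne_zero⟩
  rcases B.eq_empty_or_nonempty with rfl | hBne
  · exact ⟨fun _ => -1, continuous_const, fun x _ => by norm_num,
      fun x hx => absurd hx (notMem_empty x), fun n x _ => by norm_num⟩
  obtain ⟨G, G', hG, hG', hd, hAG, hBG, hWG⟩ := h.exists_open hWc hWd hWn
  have hne1 : (Gᶜ).Nonempty := by
    obtain ⟨b, hb⟩ := hBne
    exact ⟨b, Set.disjoint_right.1 hd (hBG hb)⟩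
  have hne2 : (G'ᶜ).Nonempty := by
    obtain ⟨a, ha⟩ := hAne
    exact ⟨a, Set.disjoint_left.1 hd (hAG ha)⟩
  have hneg : ∀ x ∈ G, infDist x G'ᶜ - infDist x Gᶜ < 0 := by
    intro x hx
    have h1 : infDist x G'ᶜ = 0 := infDist_zero_of_mem (Set.disjoint_left.1 hd hx)
    have h2 : 0 < infDist x Gᶜ := by
      rw [← hG.isClosed_compl.notMem_iff_infDist_pos hne1]
      simpa using hx
    linarith
  have hpos : ∀ x ∈ G', 0 < infDist x G'ᶜ - infDist x Gᶜ := by
    intro x hx
    have h1 : infDist x Gᶜ = 0 := infDist_zero_of_mem (Set.disjoint_right.1 hd hx)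
    have h2 : 0 < infDist x G'ᶜ := by
      rw [← hG'.isClosed_compl.notMem_iff_infDist_pos hne2]
      simpa using hx
    linarith
  refine ⟨fun x => infDist x G'ᶜ - infDist x Gᶜ,
    (continuous_infDist_pt _).sub (continuous_infDist_pt _), fun x hx => hneg x (hAG hx),
    fun x hx => hpos x (hBG hx), fun n x hx => ?_⟩
  rcases hWG n with h1 | h1
  · exact (hneg x (h1 hx)).ne
  · exact (hpos x (h1 hx)).ne'

/-- The cut lemma. -/
theorem Ess.cut (hp : ∀ j, Continuous (p j)) {S : Set X} (hS : IsCompact S) {J : Set ℕ}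
    (hE : Ess p S J) {j : ℕ} (hj : j ∈ J) (W : ℕ → Set X) (hWc : ∀ n, IsClosed (W n))
    (hWd : ∀ m n, m ≠ n → Disjoint (W m) (W n)) (hWn : NullSeq W)
    (hWf : ∀ n, Disjoint (W n) S ∨ Disjoint (W n) {x | p j x = 0} ∨
      Disjoint (W n) {x | p j x = 1}) :
    ∃ S' ⊆ S, IsCompact S' ∧ (∀ n, Disjoint (W n) S') ∧ Ess p S' (J \ {j}) := by
  classical
  -- forget the members that miss `S`
  let W' : ℕ → Set X := fun n => if Disjoint (W n) S then ∅ else W n
  have hW's : ∀ n, W' n ⊆ W n := by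
    intro n
    by_cases h : Disjoint (W n) S
    · simp [W', h]
    · simp [W', h]
  have hsep : Sep W' {x | p j x = 0} {x | p j x = 1} := by
    refine ⟨isClosed_eq (hp j) continuous_const, isClosed_eq (hp j) continuous_const, ?_, ?_⟩
    · rw [Set.disjoint_left]
      intro x hx hx'
      simp only [mem_ofPred_eq] at hx hx'
      rw [hx] at hx'
      exact zero_ne_one hx'
    · intro n
      by_cases h : Disjoint (W n) S
      · left
        simp [W', h]
      · rcases hWf n with h1 | h1 | h1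
        · exact absurd h1 h
        · exact Or.inl (h1.mono_left (hW's n))
        · exact Or.inr (h1.mono_left (hW's n))
  obtain ⟨g, hg, hgA, hgB, hgW⟩ := hsep.exists_fun
    (fun n => by
      by_cases h : Disjoint (W n) S
      · simp [W', h]
      · simpa [W', h] using hWc n)
    (fun m n hmn => (hWd m n hmn).mono (hW's m) (hW's n))
    (fun ε hε => by
      obtain ⟨N, hN⟩ := hWn ε hε
      exact ⟨N, fun n hn x hx y hy => hN n hn x (hW's n hx) y (hW's n hy)⟩)
  have hS'c : IsCompact (S ∩ {x | g x = 0}) := hS.inter_right (isClosed_eq hg continuous_const)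
  refine ⟨S ∩ {x | g x = 0}, inter_subset_left, hS'c, fun n => ?_, ?_⟩
  · rw [Set.disjoint_left]
    rintro x hx ⟨hxS, hx0⟩
    by_cases h : Disjoint (W n) S
    · exact Set.disjoint_left.1 h hx hxS
    · refine hgW n x ?_ hx0
      simpa [W', h] using hx
  · intro G hG hGs
    have h1 : ∀ i ∈ J \ {j}, ∃ l : ℝ, Sgn p S i (fun x => G i x + l * |g x| * (p i x - 1 / 2)) := by
      intro i hi
      refine sgn_repair hp hS (hG i) hg.abs (fun x => abs_nonneg _) ?_
      have : S ∩ {x | |g x| = 0} = S ∩ {x | g x = 0} := by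
        ext x
        simp
      rw [this]
      exact hGs i hi
    choose! l hl using h1
    obtain ⟨x, hxS, hx0⟩ := hE (fun i => if i = j then g else
        fun x => G i x + l i * |g x| * (p i x - 1 / 2))
      (fun i => by
        by_cases hi : i = j
        · simpa [hi] using hg
        · simp only [hi, if_false]
          exact (hG i).add ((continuous_const.mul hg.abs).mul ((hp i).sub continuous_const)))
      (fun i hi => by
        by_cases hij : i = j
        · subst hij
          simp only [if_true]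
          exact ⟨fun x _ hx => hgA x hx, fun x _ hx => hgB x hx⟩
        · simp only [hij, if_false]
          exact hl i ⟨hi, hij⟩)
    have h2 : g x = 0 := by
      have := hx0 j hj
      simpa using this
    refine ⟨x, ⟨hxS, h2⟩, fun i hi => ?_⟩
    have h3 := hx0 i hi.1
    have hij : i ≠ j := fun h => hi.2 (by simp [h])
    simpa [hij, h2] using h3

end Pool.Agent.Helper72.HC
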