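import Mathlib

/-!
# Essential compacta with an infinite set of essential coordinates

`p : ℕ → X → ℝ` is a sequence of continuous functions on a compact metric space; the faces of
index `j` are `{p j = 0}` and `{p j = 1}`.
-/

open Set Filter Topology Metric

set_option linter.unusedSectionVars false

namespace Pool.Agent.Helper72.HC

variable {X : Type*} [MetricSpace X] [CompactSpace X] {p : ℕ → X → ℝ}

/-- `g` is negative on the part of `S` in the face `p j = 0` and positive on the part of `S` in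
the face `p j = 1`. -/
def Sgn (p : ℕ → X → ℝ) (S : Set X) (j : ℕ) (g : X → ℝ) : Prop :=
  (∀ x ∈ S, p j x = 0 → g x < 0) ∧ (∀ x ∈ S, p j x = 1 → 0 < g x)

/-- The faces of index in `J` are essential on `S`. -/
def Ess (p : ℕ → X → ℝ) (S : Set X) (J : Set ℕ) : Prop :=
  ∀ g : ℕ → X → ℝ, (∀ j, Continuous (g j)) → (∀ j ∈ J, Sgn p S j (g j)) →
    ∃ x ∈ S, ∀ j ∈ J, g j x = 0

theorem Sgn.mono {S S' : Set X} (h : S' ⊆ S) {j : ℕ} {g : X → ℝ} (hg : Sgn p S j g) :
    Sgn p S' j g :=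
  ⟨fun x hx => hg.1 x (h hx), fun x hx => hg.2 x (h hx)⟩

theorem sgn_face (S : Set X) (j : ℕ) : Sgn p S j (fun x => p j x - 1 / 2) := by
  constructor
  · intro x _ hx
    simp only [hx]; norm_num
  · intro x _ hx
    simp only [hx]; norm_num

theorem Ess.mono (hp : ∀ j, Continuous (p j)) {S : Set X} {J J' : Set ℕ} (hE : Ess p S J)
    (hJ : J' ⊆ J) : Ess p S J' := by
  classical
  intro g hg hs
  obtain ⟨x, hx, h0⟩ := hE (fun j => if j ∈ J' then g j else fun x => p j x - 1 / 2)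
    (fun j => by
      by_cases hj : j ∈ J'
      · simpa [hj] using hg j
      · simp only [hj, if_false]
        exact (hp j).sub continuous_const)
    (fun j _ => by
      by_cases hj : j ∈ J'
      · simpa [hj] using hs j hj
      · simpa [hj] using sgn_face (p := p) S j)
  refine ⟨x, hx, fun j hj => ?_⟩
  have := h0 j (hJ hj)
  simpa [hj] using this

theorem Ess.nonempty (hp : ∀ j, Continuous (p j)) {S : Set X} {J : Set ℕ} (hE : Ess p S J) :
    S.Nonempty := by
  obtain ⟨x, hx, -⟩ := hE (fun j x => p j x - 1 / 2) (fun j => (hp j).sub continuous_const)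
    (fun j _ => sgn_face S j)
  exact ⟨x, hx⟩

/-- One-sided repair. -/
theorem repair_aux {K : Set X} (hK : IsCompact K) {g ρ : X → ℝ} (hg : Continuous g)
    (hρ : Continuous ρ) (hρ0 : ∀ x, 0 ≤ ρ x) (h : ∀ x ∈ K, ρ x = 0 → g x < 0) :
    ∃ l : ℝ, ∀ l' ≥ l, ∀ x ∈ K, g x < l' * ρ x := by
  -- the compact set where `g ≥ 0`
  have hK' : IsCompact (K ∩ {x | 0 ≤ g x}) := hK.inter_right (isClosed_le continuous_const hg)
  rcases (K ∩ {x | 0 ≤ g x}).eq_empty_or_nonempty with he | hne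
  · refine ⟨0, fun l' hl' x hx => ?_⟩
    have hgx : g x < 0 := by
      by_contra hcon
      have : x ∈ K ∩ {x | 0 ≤ g x} := ⟨hx, not_lt.1 hcon⟩
      rw [he] at this
      exact this
    exact hgx.trans_le (mul_nonneg hl' (hρ0 x))
  · obtain ⟨a, ha, hamin⟩ := hK'.exists_isMinOn hne hρ.continuousOn
    obtain ⟨b, hb, hbmax⟩ := hK'.exists_isMaxOn hne hg.continuousOn
    have hρa : 0 < ρ a := by
      rcases (hρ0 a).lt_or_eq with h1 | h1
      · exact h1
      · exact absurd (h a ha.1 h1.symm) (not_lt.2 ha.2)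
    refine ⟨(g b + 1) / ρ a, fun l' hl' x hx => ?_⟩
    have hgb : 0 ≤ g b := hb.2
    have hl0 : 0 ≤ l' := le_trans (by positivity) hl'
    by_cases hgx : 0 ≤ g x
    · have h1 : ρ a ≤ ρ x := hamin ⟨hx, hgx⟩
      have h2 : g x ≤ g b := hbmax ⟨hx, hgx⟩
      have h3 : g b + 1 ≤ l' * ρ a := by
        rw [ge_iff_le, div_le_iff₀ hρa] at hl'
        exact hl'
      have h4 : l' * ρ a ≤ l' * ρ x := mul_le_mul_of_nonneg_left h1 hl0
      linarith
    · exact (not_le.1 hgx).trans_le (mul_nonneg hl0 (hρ0 x))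

/-- Lemma M: sign conditions on `S ∩ {ρ = 0}` can be repaired to sign conditions on `S`. -/
theorem sgn_repair (hp : ∀ j, Continuous (p j)) {S : Set X} (hS : IsCompact S) {j : ℕ}
    {g ρ : X → ℝ} (hg : Continuous g) (hρ : Continuous ρ) (hρ0 : ∀ x, 0 ≤ ρ x)
    (h : Sgn p (S ∩ {x | ρ x = 0}) j g) :
    ∃ l : ℝ, Sgn p S j (fun x => g x + l * ρ x * (p j x - 1 / 2)) := by
  obtain ⟨l₁, hl₁⟩ := repair_aux (K := S ∩ {x | p j x = 0})
    (hS.inter_right (isClosed_eq (hp j) continuous_const)) hg hρ hρ0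
    (fun x hx h0 => h.1 x ⟨hx.1, h0⟩ hx.2)
  obtain ⟨l₂, hl₂⟩ := repair_aux (K := S ∩ {x | p j x = 1})
    (hS.inter_right (isClosed_eq (hp j) continuous_const)) hg.neg hρ hρ0
    (fun x hx h0 => by
      have := h.2 x ⟨hx.1, h0⟩ hx.2
      simpa using this)
  refine ⟨2 * max l₁ l₂, fun x hx h0 => ?_, fun x hx h1 => ?_⟩
  · have := hl₁ (max l₁ l₂) (le_max_left _ _) x ⟨hx, h0⟩
    simp only [h0]
    linarith
  · have := hl₂ (max l₁ l₂) (le_max_right _ _) x ⟨hx, h1⟩
    simp only [Pi.neg_apply] at this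
    simp only [h1]
    linarith

/-- A closed set is the zero set of a nonnegative continuous function. -/
theorem exists_zero_fun {C : Set X} (hC : IsClosed C) :
    ∃ ρ : X → ℝ, Continuous ρ ∧ (∀ x, 0 ≤ ρ x) ∧ ∀ x, ρ x = 0 ↔ x ∈ C := by
  rcases C.eq_empty_or_nonempty with rfl | hne
  · exact ⟨fun _ => 1, continuous_const, fun _ => zero_le_one, fun x => by simp⟩
  · refine ⟨fun x => infDist x C, continuous_infDist_pt C, fun x => infDist_nonneg, fun x => ?_⟩
    exact (hC.mem_iff_infDist_zero hne).symm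

/-- Sum lemma, with prescribed disjoint index sets. -/
theorem Ess.sum (hp : ∀ j, Continuous (p j)) {S : Set X} (hS : IsCompact S) {J : Set ℕ}
    (hE : Ess p S J) {ι : Type*} (C : ι → Set X) (hC : ∀ i, IsClosed (C i))
    (hcov : S ⊆ ⋃ i, C i) (Ji : ι → Set ℕ) (hJ : ∀ i, Ji i ⊆ J)
    (hd : ∀ i i' j, j ∈ Ji i → j ∈ Ji i' → i = i') :
    ∃ i, Ess p (S ∩ C i) (Ji i) := by
  classical
  by_contra hcon
  push Not at hcon
  choose ρ hρ hρ0 hρC using fun i => exists_zero_fun (hC i)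
  have h1 : ∀ i, ∃ g : ℕ → X → ℝ, (∀ j, Continuous (g j)) ∧
      (∀ j ∈ Ji i, Sgn p (S ∩ C i) j (g j)) ∧ ∀ x ∈ S ∩ C i, ∃ j ∈ Ji i, g j x ≠ 0 := by
    intro i
    have h2 := hcon i
    unfold Ess at h2
    push Not at h2
    obtain ⟨g, hg, hs, hx⟩ := h2
    exact ⟨g, hg, hs, hx⟩
  choose g hg hs hx using h1
  have hset : ∀ i, S ∩ {x | ρ i x = 0} = S ∩ C i := by
    intro i
    ext x
    simp [hρC i x]
  have h3 : ∀ i j, j ∈ Ji i → ∃ l : ℝ,
      Sgn p S j (fun x => g i j x + l * ρ i x * (p j x - 1 / 2)) := by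
    intro i j hj
    refine sgn_repair hp hS (hg i j) (hρ i) (hρ0 i) ?_
    rw [hset i]
    exact hs i j hj
  choose! l hl using h3
  -- the combined family
  let G : ℕ → X → ℝ := fun j =>
    if h : ∃ i, j ∈ Ji i then
      fun x => g h.choose j x + l h.choose j * ρ h.choose x * (p j x - 1 / 2)
    else fun x => p j x - 1 / 2
  have hGi : ∀ i j, j ∈ Ji i → G j = fun x => g i j x + l i j * ρ i x * (p j x - 1 / 2) := by
    intro i j hj
    have hex : ∃ i, j ∈ Ji i := ⟨i, hj⟩
    have hc : hex.choose = i := hd _ _ j hex.choose_spec hj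
    simp only [G, hex, dite_true, hc]
  have hGn : ∀ j, (¬ ∃ i, j ∈ Ji i) → G j = fun x => p j x - 1 / 2 := by
    intro j hj
    simp only [G, hj, dite_false]
  obtain ⟨x, hxS, hx0⟩ := hE G
    (fun j => by
      by_cases hj : ∃ i, j ∈ Ji i
      · obtain ⟨i, hi⟩ := hj
        rw [hGi i j hi]
        exact (hg i j).add ((continuous_const.mul (hρ i)).mul ((hp j).sub continuous_const))
      · rw [hGn j hj]
        exact (hp j).sub continuous_const)
    (fun j _ => by
      by_cases hj : ∃ i, j ∈ Ji i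
      · obtain ⟨i, hi⟩ := hj
        rw [hGi i j hi]
        exact hl i j hi
      · rw [hGn j hj]
        exact sgn_face S j)
  obtain ⟨i, hi⟩ := mem_iUnion.1 (hcov hxS)
  obtain ⟨j, hj, hne⟩ := hx i x ⟨hxS, hi⟩
  apply hne
  have h4 := hx0 j (hJ i hj)
  rw [hGi i j hj] at h4
  have h5 : ρ i x = 0 := (hρC i x).2 hi
  simpa [h5] using h4

/-- Countable sum lemma for infinitely many essential coordinates. -/
theorem Ess.sum_infinite (hp : ∀ j, Continuous (p j)) {S : Set X} (hS : IsCompact S) {J : Set ℕ}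
    (hJ : J.Infinite) (hE : Ess p S J) {ι : Type*} [Countable ι] (C : ι → Set X)
    (hC : ∀ i, IsClosed (C i)) (hcov : S ⊆ ⋃ i, C i) :
    ∃ i, ∃ J' ⊆ J, J'.Infinite ∧ Ess p (S ∩ C i) J' := by
  obtain ⟨f, hf⟩ := Countable.exists_injective_nat ι
  let e : ℕ ↪ ℕ := ⟨fun n => (hJ.natEmbedding J n : ℕ), fun a b h =>
    (hJ.natEmbedding J).injective (Subtype.ext h)⟩
  have he : ∀ n, e n ∈ J := fun n => (hJ.natEmbedding J n).2
  obtain ⟨i, hi⟩ := hE.sum hp hS C hC hcov (fun i => range fun k => e (Nat.pair (f i) k))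
    (fun i => by
      rintro _ ⟨k, rfl⟩
      exact he _)
    (fun i i' j => by
      rintro ⟨k, rfl⟩ ⟨k', hk'⟩
      have h1 := e.injective hk'
      have h2 : f i' = f i := by
        have := congrArg (fun z => (Nat.unpair z).1) h1
        simpa using this
      exact (hf h2).symm)
  refine ⟨i, _, ?_, ?_, hi⟩
  · rintro _ ⟨k, rfl⟩
    exact he _
  · refine infinite_range_of_injective ?_
    intro a b hab
    have h1 := e.injective hab
    have := congrArg (fun z => (Nat.unpair z).2) h1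
    simpa using this

end Pool.Agent.Helper72.HC
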