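import Pool.Agent.Helper72.HC.NT
import Pool.Agent.Helper72.HC.PM

/-!
# A point with prescribed avoided values that avoids countably many sets of type `N`
-/

open Set Filter Topology Metric

set_option linter.unusedSectionVars false

namespace Pool.Agent.Helper72.HC

section general

variable {X : Type*} [MetricSpace X] [CompactSpace X] {p : ℕ → X → ℝ}

theorem exists_small_face (hp : ∀ j, Continuous (p j)) (j : ℕ) :
    ∃ ε > 0, ∀ A : Set X, Small ε A →
      Disjoint A {x | p j x = 0} ∨ Disjoint A {x | p j x = 1} := by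
  have huc : UniformContinuous (p j) := CompactSpace.uniformContinuous_of_continuous (hp j)
  obtain ⟨δ, hδ, hh⟩ := Metric.uniformContinuous_iff.1 huc 1 one_pos
  refine ⟨δ / 2, half_pos hδ, fun A hA => ?_⟩
  by_contra hcon
  push Not at hcon
  obtain ⟨x, hx, hx0⟩ := Set.not_disjoint_iff.1 hcon.1
  obtain ⟨y, hy, hy1⟩ := Set.not_disjoint_iff.1 hcon.2
  have h1 := hh ((hA x hx y hy).trans_lt (half_lt_self hδ))
  simp only [mem_ofPred_eq] at hx0 hy1
  rw [hx0, hy1] at h1
  norm_num at h1

/-- Cutting successively with finitely many families. -/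
theorem Ess.recut (hp : ∀ j, Continuous (p j)) {T : Set X} (hT : IsCompact T) {J : Set ℕ}
    (hE : Ess p T J) (W : ℕ → ℕ → Set X) (hWc : ∀ i n, IsClosed (W i n))
    (hWd : ∀ i m n, m ≠ n → Disjoint (W i m) (W i n)) (hWn : ∀ i, NullSeq (W i))
    (e : ℕ → ℕ) (he : Function.Injective e) (heJ : ∀ i, e i ∈ J) (n : ℕ)
    (hWf : ∀ i < n, ∀ l, Disjoint (W i l) T ∨ Disjoint (W i l) {x | p (e i) x = 0} ∨
      Disjoint (W i l) {x | p (e i) x = 1}) :
    ∃ T' ⊆ T, IsCompact T' ∧ (∀ i < n, ∀ l, Disjoint (W i l) T') ∧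
      Ess p T' (J \ (e '' {i | i < n})) := by
  induction n with
  | zero =>
    refine ⟨T, Subset.rfl, hT, fun i hi => absurd hi (Nat.not_lt_zero i), ?_⟩
    simpa using hE
  | succ n ih =>
    obtain ⟨T', hT'T, hT'c, hoff, hE'⟩ := ih (fun i hi => hWf i (hi.trans (Nat.lt_succ_self n)))
    have hmem : e n ∈ J \ (e '' {i | i < n}) := by
      refine ⟨heJ n, ?_⟩
      rintro ⟨i, hi, hie⟩
      have := he hie
      simp only [mem_ofPred_eq] at hi
      omega
    obtain ⟨T'', hT'', hc, hoff', hE''⟩ := hE'.cut hp hT'c hmem (W n) (hWc n) (hWd n) (hWn n)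
      (fun l => by
        rcases hWf n (Nat.lt_succ_self n) l with h | h
        · exact Or.inl (h.mono_right hT'T)
        · exact Or.inr h)
    refine ⟨T'', hT''.trans hT'T, hc, fun i hi l => ?_, ?_⟩
    · rcases Nat.lt_succ_iff_lt_or_eq.1 hi with h | h
      · exact (hoff i h l).mono_right hT''
      · subst h
        exact hoff' l
    · have : J \ (e '' {i | i < n + 1}) = (J \ (e '' {i | i < n})) \ {e n} := by
        ext j
        simp only [Set.mem_sdiff, mem_image, mem_ofPred_eq, mem_singleton_iff, not_exists, not_and]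
        constructor
        · rintro ⟨h1, h2⟩
          exact ⟨⟨h1, fun i hi => h2 i (hi.trans (Nat.lt_succ_self n))⟩,
            fun h => h2 n (Nat.lt_succ_self n) h.symm⟩
        · rintro ⟨⟨h1, h2⟩, h3⟩
          refine ⟨h1, fun i hi => ?_⟩
          rcases Nat.lt_succ_iff_lt_or_eq.1 hi with h | h
          · exact h2 i h
          · subst h
            exact fun h => h3 h.symm
      rw [this]
      exact hE''

end general

attribute [local instance] PiCountable.metricSpace

/-- The coordinates of the Hilbert cube as real functions. -/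
def crd (j : ℕ) (x : ℕ → unitInterval) : ℝ := x j

theorem continuous_crd (j : ℕ) : Continuous (crd j) :=
  continuous_subtype_val.comp (continuous_apply j)

theorem ess_univ : Ess crd (univ : Set (ℕ → unitInterval)) univ := by
  intro g hg hs
  obtain ⟨x, hx⟩ := miranda g hg (fun j x hx => (hs j (mem_univ _)).1 x (mem_univ _) hx)
    (fun j x hx => (hs j (mem_univ _)).2 x (mem_univ _) hx)
  exact ⟨x, mem_univ _, fun j _ => hx j⟩

theorem continuous_upd (i : ℕ) (c : unitInterval) :
    Continuous fun x : ℕ → unitInterval => Function.update x i c :=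
  continuous_id.update i continuous_const

/-- Translation of an essential compactum inside a wall. -/
theorem Ess.translate {S : Set (ℕ → unitInterval)} {J : Set ℕ} (hE : Ess crd S J) {i : ℕ}
    (hi : i ∉ J) (c : unitInterval) :
    Ess crd ((fun x => Function.update x i c) '' S) J := by
  intro g hg hs
  obtain ⟨x, hxS, hx⟩ := hE (fun j x => g j (Function.update x i c))
    (fun j => (hg j).comp (continuous_upd i c))
    (fun j hj => by
      have hji : j ≠ i := fun h => hi (h ▸ hj)
      constructor
      · intro x hx h0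
        refine (hs j hj).1 _ (mem_image_of_mem _ hx) ?_
        simpa [crd, hji] using h0
      · intro x hx h1
        refine (hs j hj).2 _ (mem_image_of_mem _ hx) ?_
        simpa [crd, hji] using h1)
  exact ⟨_, mem_image_of_mem _ hxS, hx⟩

/-- The state of the construction. -/
structure St (V : ℕ → ℕ → ℕ → Set (ℕ → unitInterval)) (n : ℕ) (k : ℕ → ℕ)
    (u v : ℕ → unitInterval) (S : Set (ℕ → unitInterval)) (J : Set ℕ) : Prop where
  uv : ∀ j, u j < v j
  cpt : IsCompact S
  box : ∀ x ∈ S, ∀ j, u j ≤ x j ∧ x j ≤ v j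
  off : ∀ i < n, ∀ l, Disjoint (closure (V i (k i) l)) S
  inf : J.Infinite
  ess : Ess crd S J

variable {V : ℕ → ℕ → ℕ → Set (ℕ → unitInterval)} {n : ℕ} {k : ℕ → ℕ}
  {u v : ℕ → unitInterval} {S : Set (ℕ → unitInterval)} {J : Set ℕ}

theorem nullSeq_closure {W : ℕ → Set (ℕ → unitInterval)} (h : NullSeq W) :
    NullSeq fun n => closure (W n) := fun ε hε => by
  obtain ⟨N, hN⟩ := h ε hε
  exact ⟨N, fun n hn => small_closure (hN n hn)⟩

/-- A new family. -/
theorem St.family (hV : ∀ i, NFam (V i)) (h : St V n k u v S J) :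
    ∃ (k' : ℕ → ℕ) (S' : Set (ℕ → unitInterval)) (J' : Set ℕ),
      St V (n + 1) k' u v S' J' ∧ ∀ i < n, k' i = k i := by
  obtain ⟨j, hj⟩ := h.inf.nonempty
  obtain ⟨ε, hε, hface⟩ := exists_small_face continuous_crd j
  obtain ⟨m, hm⟩ := (hV n).mesh ε hε
  obtain ⟨S', hS', hc, hoff, hE⟩ := h.ess.cut continuous_crd h.cpt hj
    (fun l => closure (V n m l)) (fun l => isClosed_closure) ((hV n).disj m)
    (nullSeq_closure ((hV n).null m))
    (fun l => Or.inr (hface _ (small_closure (hm l))))
  refine ⟨Function.update k n m, S', J \ {j},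
    ⟨h.uv, hc, fun x hx => h.box x (hS' hx), fun i hi l => ?_,
      h.inf.sdiff (finite_singleton j), hE⟩, fun i hi => ?_⟩
  · rcases Nat.lt_succ_iff_lt_or_eq.1 hi with h1 | h1
    · rw [Function.update_of_ne h1.ne]
      exact (h.off i h1 l).mono_right hS'
    · subst h1
      rw [Function.update_self]
      exact hoff l
  · rw [Function.update_of_ne hi.ne]

/-- The part of the compactum in a wall can be moved off the wall. -/
theorem St.onwall (hV : ∀ i, NFam (V i)) (h : St V n k u v S J) (j₀ : ℕ) (q : unitInterval)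
    (hj : j₀ ∉ J) (hS : ∀ x ∈ S, x j₀ = q) :
    ∃ (u' v' : ℕ → unitInterval) (S' : Set (ℕ → unitInterval)) (J' : Set ℕ),
      St V n k u' v' S' J' ∧ (∀ j, u j ≤ u' j ∧ v' j ≤ v j) ∧ (q < u' j₀ ∨ v' j₀ < q) := by
  -- a fresh coordinate for every old family
  let e : ℕ → ℕ := fun i => (h.inf.natEmbedding J i : ℕ)
  have he : Function.Injective e := fun a b hab =>
    (h.inf.natEmbedding J).injective (Subtype.ext hab)
  have heJ : ∀ i, e i ∈ J := fun i => (h.inf.natEmbedding J i).2
  -- the large members of the families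
  choose ε hε hface using fun i => exists_small_face continuous_crd (e i)
  choose N hN using fun i => nullSeq_closure ((hV i).null (k i)) (ε i) (hε i)
  let O : Set (ℕ → unitInterval) :=
    ⋂ i ∈ {i | i < n}, ⋂ l ∈ {l | l < N i}, (closure (V i (k i) l))ᶜ
  have hO : IsOpen O :=
    (finite_lt_nat n).isOpen_biInter fun i _ =>
      (finite_lt_nat (N i)).isOpen_biInter fun l _ => isClosed_closure.isOpen_compl
  have hSO : S ⊆ O := by
    intro x hx
    simp only [O, mem_iInter]
    intro i hi l _
    exact Set.disjoint_right.1 (h.off i hi l) hx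
  have hev : ∀ᶠ c in 𝓝 q, ∀ x ∈ S, Function.update x j₀ c ∈ O := by
    refine h.cpt.eventually_forall_of_forall_eventually fun x hx => ?_
    have hc : Continuous fun z : unitInterval × (ℕ → unitInterval) =>
        Function.update z.2 j₀ z.1 := continuous_snd.update j₀ continuous_fst
    refine hc.continuousAt.eventually_mem (hO.mem_nhds ?_)
    have : Function.update x j₀ q = x := by
      rw [← hS x hx, Function.update_eq_self]
    simp only [this]
    exact hSO hx
  -- the move
  have hmove : ∀ c : unitInterval, u j₀ ≤ c → c ≤ v j₀ →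
      (∀ x ∈ S, Function.update x j₀ c ∈ O) →
      ∃ (S' : Set (ℕ → unitInterval)) (J' : Set ℕ), St V n k u v S' J' ∧
        ∀ x ∈ S', x j₀ = c := by
    intro c hc1 hc2 hcO
    have hTc : IsCompact ((fun x => Function.update x j₀ c) '' S) :=
      h.cpt.image (continuous_upd j₀ c)
    obtain ⟨T', hT'T, hT'c, hoff, hE'⟩ := (h.ess.translate hj c).recut continuous_crd hTc
      (fun i l => closure (V i (k i) l)) (fun i l => isClosed_closure)
      (fun i => (hV i).disj (k i)) (fun i => nullSeq_closure ((hV i).null (k i)))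
      e he heJ n (fun i hi l => by
        by_cases hl : l < N i
        · left
          rw [Set.disjoint_right]
          rintro _ ⟨x, hx, rfl⟩
          have h1 := hcO x hx
          simp only [O, mem_iInter] at h1
          exact h1 i hi l hl
        · right
          exact hface i _ (hN i l (not_lt.1 hl)))
    have hT'eq : ∀ x ∈ T', x j₀ = c := by
      intro x hx
      obtain ⟨y, -, rfl⟩ := hT'T hx
      simp
    refine ⟨T', J \ (e '' {i | i < n}), ⟨h.uv, hT'c, fun x hx j => ?_, hoff,
      h.inf.sdiff ((finite_lt_nat n).image e), hE'⟩, hT'eq⟩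
    by_cases hjj : j = j₀
    · subst hjj
      rw [hT'eq x hx]
      exact ⟨hc1, hc2⟩
    · obtain ⟨y, hy, rfl⟩ := hT'T hx
      simp only [Function.update_of_ne hjj]
      exact h.box y hy j
  have hq : u j₀ ≤ q ∧ q ≤ v j₀ := by
    obtain ⟨x, hx⟩ := h.ess.nonempty continuous_crd
    have := h.box x hx j₀
    rwa [hS x hx] at this
  rcases lt_or_ge q (v j₀) with hqv | hqv
  · -- move up
    have : (𝓝[>] q).NeBot := nhdsGT_neBot_of_exists_gt ⟨_, hqv⟩
    obtain ⟨c, hc, hcI⟩ := ((hev.filter_mono nhdsWithin_le_nhds).and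
      (Ioo_mem_nhdsGT hqv : Ioo q (v j₀) ∈ 𝓝[>] q)).exists
    obtain ⟨S', J', hS', hSc⟩ := hmove c (hq.1.trans hcI.1.le) hcI.2.le hc
    obtain ⟨r, hr1, hr2⟩ := exists_between hcI.1
    refine ⟨Function.update u j₀ r, v, S', J', ⟨fun j => ?_, hS'.cpt, fun x hx j => ?_, hS'.off,
      hS'.inf, hS'.ess⟩, fun j => ⟨?_, le_rfl⟩, Or.inl (by simpa using hr1)⟩
    · by_cases hjj : j = j₀
      · subst hjj
        simpa using hr2.trans hcI.2
      · rw [Function.update_of_ne hjj]
        exact h.uv j
    · by_cases hjj : j = j₀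
      · subst hjj
        refine ⟨?_, (hS'.box x hx j).2⟩
        rw [Function.update_self, hSc x hx]
        exact hr2.le
      · rw [Function.update_of_ne hjj]
        exact hS'.box x hx j
    · by_cases hjj : j = j₀
      · subst hjj
        rw [Function.update_self]
        exact hq.1.trans hr1.le
      · rw [Function.update_of_ne hjj]
  · -- move down
    have huq : u j₀ < q := (h.uv j₀).trans_le hqv
    have : (𝓝[<] q).NeBot := nhdsLT_neBot_of_exists_lt ⟨_, huq⟩
    obtain ⟨c, hc, hcI⟩ := ((hev.filter_mono nhdsWithin_le_nhds).and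
      (Ioo_mem_nhdsLT huq : Ioo (u j₀) q ∈ 𝓝[<] q)).exists
    obtain ⟨S', J', hS', hSc⟩ := hmove c hcI.1.le (hcI.2.le.trans hq.2) hc
    obtain ⟨r, hr1, hr2⟩ := exists_between hcI.2
    refine ⟨u, Function.update v j₀ r, S', J', ⟨fun j => ?_, hS'.cpt, fun x hx j => ?_, hS'.off,
      hS'.inf, hS'.ess⟩, fun j => ⟨le_rfl, ?_⟩, Or.inr (by simpa using hr2)⟩
    · by_cases hjj : j = j₀
      · subst hjj
        simpa using hcI.1.trans hr1
      · rw [Function.update_of_ne hjj]
        exact h.uv j
    · by_cases hjj : j = j₀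
      · subst hjj
        refine ⟨(hS'.box x hx j).1, ?_⟩
        rw [Function.update_self, hSc x hx]
        exact hr1.le
      · rw [Function.update_of_ne hjj]
        exact hS'.box x hx j
    · by_cases hjj : j = j₀
      · subst hjj
        rw [Function.update_self]
        exact hr2.le.trans hq.2
      · rw [Function.update_of_ne hjj]

/-- Removing one wall. -/
theorem St.wall (hV : ∀ i, NFam (V i)) (h : St V n k u v S J) (j₀ : ℕ) (q : unitInterval) :
    ∃ (u' v' : ℕ → unitInterval) (S' : Set (ℕ → unitInterval)) (J' : Set ℕ),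
      St V n k u' v' S' J' ∧ (∀ j, u j ≤ u' j ∧ v' j ≤ v j) ∧ (q < u' j₀ ∨ v' j₀ < q) := by
  rcases lt_or_ge q (u j₀) with hq1 | hq1
  · exact ⟨u, v, S, J, h, fun j => ⟨le_rfl, le_rfl⟩, Or.inl hq1⟩
  rcases lt_or_ge (v j₀) q with hq2 | hq2
  · exact ⟨u, v, S, J, h, fun j => ⟨le_rfl, le_rfl⟩, Or.inr hq2⟩
  obtain ⟨D, hDc, hDd⟩ := TopologicalSpace.exists_countable_dense unitInterval
  have : Countable D := hDc.to_subtype
  -- drop the coordinate of the wall
  have hJ₁ : (J \ {j₀}).Infinite := h.inf.sdiff (finite_singleton j₀)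
  have hE₁ : Ess crd S (J \ {j₀}) := h.ess.mono continuous_crd sdiff_subset
  let C : Option (D ⊕ D) → Set (ℕ → unitInterval) := fun o =>
    match o with
    | none => {x | x j₀ = q}
    | some (Sum.inl r) => {x | (r : unitInterval) < q ∧ x j₀ ≤ r}
    | some (Sum.inr r) => {x | q < (r : unitInterval) ∧ (r : unitInterval) ≤ x j₀}
  have hC : ∀ o, IsClosed (C o) := by
    rintro (_ | r | r)
    · exact isClosed_eq (continuous_apply j₀) continuous_const
    · change IsClosed {x : ℕ → unitInterval | (r : unitInterval) < q ∧ x j₀ ≤ r}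
      by_cases hr : (r : unitInterval) < q
      · simp only [hr, true_and]
        exact isClosed_le (continuous_apply j₀) continuous_const
      · simp [hr]
    · change IsClosed {x : ℕ → unitInterval | q < (r : unitInterval) ∧ (r : unitInterval) ≤ x j₀}
      by_cases hr : q < (r : unitInterval)
      · simp only [hr, true_and]
        exact isClosed_le continuous_const (continuous_apply j₀)
      · simp [hr]
  have hcov : S ⊆ ⋃ o, C o := by
    intro x _
    rcases lt_trichotomy (x j₀) q with hlt | heq | hgt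
    · obtain ⟨r, hrD, hr1, hr2⟩ := hDd.exists_between hlt
      exact mem_iUnion.2 ⟨some (Sum.inl ⟨r, hrD⟩), hr2, hr1.le⟩
    · exact mem_iUnion.2 ⟨none, heq⟩
    · obtain ⟨r, hrD, hr1, hr2⟩ := hDd.exists_between hgt
      exact mem_iUnion.2 ⟨some (Sum.inr ⟨r, hrD⟩), hr1, hr2.le⟩
  obtain ⟨o, J', hJ', hJ'i, hE'⟩ := hE₁.sum_infinite continuous_crd h.cpt hJ₁ C hC hcov
  have hst : St V n k u v (S ∩ C o) J' :=
    ⟨h.uv, h.cpt.inter_right (hC o), fun x hx => h.box x hx.1,
      fun i hi l => (h.off i hi l).mono_right inter_subset_left, hJ'i, hE'⟩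
  rcases o with _ | r | r
  · refine hst.onwall hV j₀ q (fun hj => (hJ' hj).2 rfl) (fun x hx => hx.2)
  · -- below the wall
    obtain ⟨x, hxS, hrq, hxr⟩ := hE'.nonempty continuous_crd
    obtain ⟨r', h1, h2⟩ := exists_between hrq
    refine ⟨u, Function.update v j₀ r', _, J', ⟨fun j => ?_, hst.cpt, fun y hy j => ?_, hst.off,
      hst.inf, hst.ess⟩, fun j => ⟨le_rfl, ?_⟩, Or.inr (by simpa using h2)⟩
    · by_cases hjj : j = j₀
      · subst hjj
        rw [Function.update_self]
        exact ((h.box x hxS j).1.trans hxr).trans_lt h1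
      · rw [Function.update_of_ne hjj]
        exact h.uv j
    · by_cases hjj : j = j₀
      · subst hjj
        refine ⟨(hst.box y hy j).1, ?_⟩
        rw [Function.update_self]
        exact hy.2.2.trans h1.le
      · rw [Function.update_of_ne hjj]
        exact hst.box y hy j
    · by_cases hjj : j = j₀
      · subst hjj
        rw [Function.update_self]
        exact h2.le.trans hq2
      · rw [Function.update_of_ne hjj]
  · -- above the wall
    obtain ⟨x, hxS, hrq, hxr⟩ := hE'.nonempty continuous_crd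
    obtain ⟨r', h1, h2⟩ := exists_between hrq
    refine ⟨Function.update u j₀ r', v, _, J', ⟨fun j => ?_, hst.cpt, fun y hy j => ?_, hst.off,
      hst.inf, hst.ess⟩, fun j => ⟨?_, le_rfl⟩, Or.inl (by simpa using h1)⟩
    · by_cases hjj : j = j₀
      · subst hjj
        rw [Function.update_self]
        exact h2.trans_le (hxr.trans (h.box x hxS j).2)
      · rw [Function.update_of_ne hjj]
        exact h.uv j
    · by_cases hjj : j = j₀
      · subst hjj
        refine ⟨?_, (hst.box y hy j).2⟩
        rw [Function.update_self]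
        exact h2.le.trans hy.2.2
      · rw [Function.update_of_ne hjj]
        exact hst.box y hy j
    · by_cases hjj : j = j₀
      · subst hjj
        rw [Function.update_self]
        exact hq1.trans h1.le
      · rw [Function.update_of_ne hjj]

/-- **Main theorem.** Countably many values of coordinates and countably many sets of type `N`
can be avoided simultaneously. -/
theorem exists_avoiding (hV : ∀ i, NFam (V i)) (w : ℕ → ℕ × unitInterval) :
    ∃ z : ℕ → unitInterval, (∀ n, z (w n).1 ≠ (w n).2) ∧ ∀ i, z ∉ ⋂ k, ⋃ l, V i k l := by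
  obtain ⟨f, -, hP, hR⟩ := exists_seq
    (σ := (ℕ → ℕ) × (ℕ → unitInterval) × (ℕ → unitInterval) × Set (ℕ → unitInterval) × Set ℕ)
    (fun n s => St V n s.1 s.2.1 s.2.2.1 s.2.2.2.1 s.2.2.2.2)
    (fun n s s' => (∀ i < n, s'.1 i = s.1 i) ∧
      (∀ j, s.2.1 j ≤ s'.2.1 j ∧ s'.2.2.1 j ≤ s.2.2.1 j) ∧
      ((w n).2 < s'.2.1 (w n).1 ∨ s'.2.2.1 (w n).1 < (w n).2))
    (fun _ => 0, fun _ => 0, fun _ => 1, univ, univ)
    ⟨fun _ => zero_lt_one, isCompact_univ, fun x _ j => ⟨unitInterval.nonneg _,
      unitInterval.le_one _⟩, fun i hi => absurd hi (Nat.not_lt_zero i), infinite_univ, ess_univ⟩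
    (fun n s hs => by
      obtain ⟨k', S', J', h1, hk⟩ := hs.family hV
      obtain ⟨u', v', S'', J'', h2, huv, hw⟩ := h1.wall hV (w n).1 (w n).2
      exact ⟨(k', u', v', S'', J''), h2, hk, huv, hw⟩)
  choose z hz using fun n => (hP n).ess.nonempty continuous_crd
  obtain ⟨a, -, ha⟩ : ∃ a ∈ (univ : Set (ℕ → unitInterval)), MapClusterPt a atTop z :=
    isCompact_univ.exists_mapClusterPt (by simp)
  have hcl : ∀ (F : Set (ℕ → unitInterval)), IsClosed F → (∀ᶠ n in atTop, z n ∈ F) → a ∈ F := by
    intro F hF hev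
    rw [← hF.closure_eq]
    refine mem_closure_iff_clusterPt.2 (ClusterPt.mono ha ?_)
    rw [le_principal_iff]
    exact mem_map.2 hev
  have hk : ∀ i n, i < n → (f n).1 i = (f (i + 1)).1 i := by
    intro i n hin
    induction n with
    | zero => exact absurd hin (Nat.not_lt_zero i)
    | succ n ih =>
      rcases Nat.lt_succ_iff_lt_or_eq.1 hin with h1 | h1
      · rw [(hR n).1 i h1, ih h1]
      · subst h1
        rfl
  have hu : ∀ j, Monotone fun n => (f n).2.1 j := fun j =>
    monotone_nat_of_le_succ fun n => ((hR n).2.1 j).1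
  have hv : ∀ j, Antitone fun n => (f n).2.2.1 j := fun j =>
    antitone_nat_of_succ_le fun n => ((hR n).2.1 j).2
  refine ⟨a, fun n => ?_, fun i hi => ?_⟩
  · rcases (hR n).2.2 with h1 | h1
    · have h2 : (f (n + 1)).2.1 (w n).1 ≤ a (w n).1 := by
        refine hcl {x | (f (n + 1)).2.1 (w n).1 ≤ x (w n).1}
          (isClosed_le continuous_const (continuous_apply _)) ?_
        filter_upwards [eventually_ge_atTop (n + 1)] with m hm
        exact (hu _ hm).trans ((hP m).box _ (hz m) _).1
      exact (h1.trans_le h2).ne'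
    · have h2 : a (w n).1 ≤ (f (n + 1)).2.2.1 (w n).1 := by
        refine hcl {x | x (w n).1 ≤ (f (n + 1)).2.2.1 (w n).1}
          (isClosed_le (continuous_apply _) continuous_const) ?_
        filter_upwards [eventually_ge_atTop (n + 1)] with m hm
        exact ((hP m).box _ (hz m) _).2.trans (hv _ hm)
      exact (h2.trans_lt h1).ne
  · obtain ⟨l, hl⟩ := mem_iUnion.1 (mem_iInter.1 hi ((f (i + 1)).1 i))
    have h2 : a ∈ (V i ((f (i + 1)).1 i) l)ᶜ := by
      refine hcl _ ((hV i).isOpen _ _).isClosed_compl ?_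
      filter_upwards [eventually_gt_atTop i] with m hm
      have h3 := (hP m).off i hm l
      rw [hk i m hm] at h3
      exact fun h4 => Set.disjoint_left.1 h3 (subset_closure h4) (hz m)
    exact h2 hl

end Pool.Agent.Helper72.HC
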