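import Pool.Agent.Helper72.HC.Cut

/-!
# Null families of open sets with disjoint closures
-/

open Set Filter Topology Metric

set_option linter.unusedSectionVars false

namespace Pool.Agent.Helper72.HC

variable {X : Type*} [MetricSpace X] [CompactSpace X]

/-- A sequence of null families of open sets with pairwise disjoint closures, with meshes
tending to zero. -/
structure NFam (V : ℕ → ℕ → Set X) : Prop where
  isOpen : ∀ k n, IsOpen (V k n)
  disj : ∀ k m n, m ≠ n → Disjoint (closure (V k m)) (closure (V k n))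
  null : ∀ k, NullSeq (V k)
  mesh : ∀ ε > 0, ∃ k, ∀ n, Small ε (V k n)

theorem exists_small_open {F : Set X} (hF : IsClosed F) (d : X) {ε : ℝ} (hε : 0 < ε) :
    ∃ V : Set X, IsOpen V ∧ Disjoint F (closure V) ∧ Small ε V ∧ d ∈ F ∪ V := by
  by_cases hd : d ∈ F
  · exact ⟨∅, isOpen_empty, by simp, fun x hx => absurd hx (notMem_empty x), Or.inl hd⟩
  · obtain ⟨r, hr, hrF⟩ := Metric.isOpen_iff.1 hF.isOpen_compl d hd
    refine ⟨ball d (min (r / 2) (ε / 2)), isOpen_ball, ?_, ?_,
      Or.inr (mem_ball_self (lt_min (half_pos hr) (half_pos hε)))⟩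
    · rw [Set.disjoint_left]
      intro x hx hx'
      have h1 : x ∈ closedBall d (min (r / 2) (ε / 2)) := closure_ball_subset_closedBall hx'
      have h2 : x ∈ ball d r := by
        rw [mem_ball]
        rw [mem_closedBall] at h1
        have := h1.trans (min_le_left _ _)
        linarith
      exact hrF h2 hx
    · intro x hx y hy
      rw [mem_ball] at hx hy
      have h1 := hx.trans_le (min_le_right _ _)
      have h2 := hy.trans_le (min_le_right _ _)
      have h3 := dist_triangle_right x y d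
      linarith

theorem exists_fam [Nonempty X] {ε : ℝ} (hε : 0 < ε) :
    ∃ V : ℕ → Set X, (∀ n, IsOpen (V n)) ∧
      (∀ m n, m ≠ n → Disjoint (closure (V m)) (closure (V n))) ∧ NullSeq V ∧
      (∀ n, Small ε (V n)) ∧ Dense (⋃ n, V n) := by
  let d : ℕ → X := TopologicalSpace.denseSeq X
  obtain ⟨f, hf0, hP, hR⟩ := exists_seq (σ := Set X × Set X) (fun _ s => IsClosed s.1)
    (fun n s s' => IsOpen s'.2 ∧ Disjoint s.1 (closure s'.2) ∧ Small (ε / 2 ^ n) s'.2 ∧
      d n ∈ s.1 ∪ s'.2 ∧ s'.1 = s.1 ∪ closure s'.2)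
    (∅, ∅) isClosed_empty (fun n s hs => by
      obtain ⟨V, h1, h2, h3, h4⟩ := exists_small_open hs (d n) (ε := ε / 2 ^ n) (by positivity)
      exact ⟨(s.1 ∪ closure V, V), hs.union isClosed_closure, h1, h2, h3, h4, rfl⟩)
  have hmono : Monotone fun n => (f n).1 :=
    monotone_nat_of_le_succ fun n => by
      rw [(hR n).2.2.2.2]
      exact subset_union_left
  have hsub : ∀ m n, m < n → closure (f (m + 1)).2 ⊆ (f n).1 := by
    intro m n hmn
    have h1 : closure (f (m + 1)).2 ⊆ (f (m + 1)).1 := by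
      rw [(hR m).2.2.2.2]
      exact subset_union_right
    exact h1.trans (hmono hmn)
  have hdlt : ∀ m n, m < n → Disjoint (closure (f (m + 1)).2) (closure (f (n + 1)).2) :=
    fun m n hmn => (hR n).2.1.mono_left (hsub m n hmn)
  have hF0 : ∀ n, (f n).1 ⊆ closure (⋃ n, (f (n + 1)).2) := by
    intro n
    induction n with
    | zero =>
      rw [hf0]
      exact empty_subset _
    | succ n ih =>
      rw [(hR n).2.2.2.2]
      refine union_subset ih ?_
      exact closure_mono (subset_iUnion (fun n => (f (n + 1)).2) n)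
  have hle : ∀ n : ℕ, ε / 2 ^ n ≤ ε := fun n => div_le_self hε.le (one_le_pow₀ one_le_two)
  refine ⟨fun n => (f (n + 1)).2, fun n => (hR n).1, fun m n hmn => ?_, fun δ hδ => ?_,
    fun n => small_mono (hR n).2.2.1 (hle n), ?_⟩
  · rcases lt_or_gt_of_ne hmn with h | h
    · exact hdlt m n h
    · exact (hdlt n m h).symm
  · obtain ⟨N, hN⟩ : ∃ N : ℕ, ε / 2 ^ N < δ := by
      obtain ⟨N, hN⟩ := exists_nat_gt (ε / δ)
      refine ⟨N, ?_⟩
      rw [div_lt_iff₀ (by positivity)]
      rw [div_lt_iff₀ hδ] at hN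
      have h1 : (N : ℝ) < 2 ^ N := by exact_mod_cast Nat.lt_two_pow_self
      nlinarith
    refine ⟨N, fun n hn => small_mono (hR n).2.2.1 (le_trans ?_ hN.le)⟩
    exact div_le_div_of_nonneg_left hε.le (by positivity) (pow_le_pow_right₀ one_le_two hn)
  · rw [dense_iff_closure_eq, eq_univ_iff_forall]
    intro x
    have h1 : range d ⊆ closure (⋃ n, (f (n + 1)).2) := by
      rintro _ ⟨n, rfl⟩
      rcases (hR n).2.2.2.1 with h2 | h2
      · exact hF0 n h2
      · exact subset_closure (mem_iUnion.2 ⟨n, h2⟩)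
    have h2 : closure (range d) ⊆ closure (⋃ n, (f (n + 1)).2) :=
      closure_minimal h1 isClosed_closure
    exact h2 ((TopologicalSpace.denseRange_denseSeq X) x)

theorem exists_nfam [Nonempty X] : ∃ V : ℕ → ℕ → Set X, NFam V ∧ ∀ k, Dense (⋃ n, V k n) := by
  choose V h1 h2 h3 h4 h5 using fun k : ℕ =>
    exists_fam (X := X) (ε := 1 / ((k : ℝ) + 1)) (by positivity)
  refine ⟨V, ⟨h1, h2, h3, fun ε hε => ?_⟩, h5⟩
  obtain ⟨k, hk⟩ := exists_nat_one_div_lt hε
  exact ⟨k, fun n => small_mono (h4 k n) hk.le⟩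

/-- Transport by a homeomorphism. -/
theorem NFam.preimage {V : ℕ → ℕ → Set X} (hV : NFam V) (h : X ≃ₜ X) :
    NFam fun k n => h ⁻¹' V k n := by
  have huc : UniformContinuous h.symm :=
    CompactSpace.uniformContinuous_of_continuous h.symm.continuous
  have hsm : ∀ ε > 0, ∃ δ > 0, ∀ A : Set X, Small δ A → Small ε (h ⁻¹' A) := by
    intro ε hε
    obtain ⟨δ, hδ, hh⟩ := Metric.uniformContinuous_iff.1 huc ε hε
    refine ⟨δ / 2, half_pos hδ, fun A hA x hx y hy => ?_⟩
    have h1 := hA (h x) hx (h y) hy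
    have h2 := hh (h1.trans_lt (half_lt_self hδ))
    simp only [Homeomorph.symm_apply_apply] at h2
    exact h2.le
  refine ⟨fun k n => (hV.isOpen k n).preimage h.continuous, fun k m n hmn => ?_,
    fun k ε hε => ?_, fun ε hε => ?_⟩
  · rw [← h.preimage_closure, ← h.preimage_closure]
    exact (hV.disj k m n hmn).preimage h
  · obtain ⟨δ, hδ, hh⟩ := hsm ε hε
    obtain ⟨N, hN⟩ := hV.null k δ hδ
    exact ⟨N, fun n hn => hh _ (hN n hn)⟩
  · obtain ⟨δ, hδ, hh⟩ := hsm ε hε
    obtain ⟨k, hk⟩ := hV.mesh δ hδ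
    exact ⟨k, fun n => hh _ (hk n)⟩

/-- A set that can be moved into every dense `G_δ` lies in a set of type `N`. -/
theorem exists_nfam_of_movable [Nonempty X] {A : Set X}
    (hA : ∀ B : Set X, IsGδ B → Dense B → ∃ h : X ≃ₜ X, h '' A ⊆ B) :
    ∃ V : ℕ → ℕ → Set X, NFam V ∧ A ⊆ ⋂ k, ⋃ n, V k n := by
  obtain ⟨V, hV, hd⟩ := exists_nfam (X := X)
  have ho : ∀ k, IsOpen (⋃ n, V k n) := fun k => isOpen_iUnion (hV.isOpen k)
  obtain ⟨h, hh⟩ := hA (⋂ k, ⋃ n, V k n) (IsGδ.iInter_of_isOpen ho)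
    (dense_iInter_of_isOpen ho hd)
  refine ⟨_, hV.preimage h, fun x hx => ?_⟩
  have h1 := hh (mem_image_of_mem h hx)
  rw [mem_iInter] at h1 ⊢
  intro k
  obtain ⟨n, hn⟩ := mem_iUnion.1 (h1 k)
  exact mem_iUnion.2 ⟨n, hn⟩

end Pool.Agent.Helper72.HC
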